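import Pool.Agent.Helper68.TG.Goals
import Mathlib

/-!
# Project TG (MP_a41896_nt), packet TG-FLAT-SPB: specialization of a flat direction (no hypotheses)
-/

set_option autoImplicit false

open MvPolynomial

namespace Pool.Agent.Helper46.TG.SPB

open Pool.Agent.Helper68.TG (PN)

/-- the Nullstellensatz -/
theorem nsl (K L κ : Type) [Field K] [Field L] [Field κ] [Algebra K L] [Algebra K κ]
    [IsAlgClosed κ] (S : Set L) (hS : S.Finite) :
    Nonempty (Algebra.adjoin K S →ₐ[K] κ) := by
  have hfg : (Algebra.adjoin K S).FG := Subalgebra.fg_def.2 ⟨S, hS, rfl⟩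
  haveI : Algebra.FiniteType K (Algebra.adjoin K S) := (Subalgebra.fg_iff_finiteType _).1 hfg
  obtain ⟨M, hM⟩ := Ideal.exists_maximal (Algebra.adjoin K S)
  letI : Field (Algebra.adjoin K S ⧸ M) := Ideal.Quotient.field M
  haveI : Module.Finite K (Algebra.adjoin K S ⧸ M) :=
    finite_of_finite_type_of_isJacobsonRing K (Algebra.adjoin K S ⧸ M)
  haveI : Algebra.IsAlgebraic K (Algebra.adjoin K S ⧸ M) := Algebra.IsAlgebraic.of_finite K _
  exact ⟨(IsAlgClosed.lift (R := K) (S := Algebra.adjoin K S ⧸ M) (M := κ)).comp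
    (Ideal.Quotient.mkₐ K M)⟩

/-- the polynomial `P(α; X)` and a ring homomorphism -/
theorem pn_map {σ : Type} [Fintype σ] [DecidableEq σ] (N : MvPolynomial (σ ⊕ σ) ℤ)
    (A B : Type) [CommRing A] [CommRing B] (φ : A →+* B) (b : σ → MvPolynomial σ A)
    (g : MvPolynomial σ A) (α : σ → A) :
    MvPolynomial.map φ (PN N b g α) =
      PN N (fun i => MvPolynomial.map φ (b i)) (MvPolynomial.map φ g) (fun i => φ (α i)) := by
  unfold PN
  rw [MvPolynomial.map_aeval, MvPolynomial.aeval_def, MvPolynomial.coe_eval₂Hom]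
  have h1 : (MvPolynomial.map φ).comp (algebraMap ℤ (MvPolynomial σ A)) =
      algebraMap ℤ (MvPolynomial σ B) := RingHom.ext_int _ _
  have h2 : (fun i => MvPolynomial.map φ ((Sum.elim b fun i => C (α i) * pderiv i g) i)) =
      Sum.elim (fun i => MvPolynomial.map φ (b i))
        (fun i => C (φ (α i)) * pderiv i (MvPolynomial.map φ g)) := by
    funext i
    rcases i with i | i
    · simp
    · simp [MvPolynomial.pderiv_map]
  rw [h1, h2]

/-- a polynomial with coefficients in a subalgebra -/
theorem lift_poly {K L σ : Type} [Field K] [Field L] [Algebra K L] (A : Subalgebra K L)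
    (r : MvPolynomial σ L) (h : ∀ m, coeff m r ∈ A) :
    ∃ r' : MvPolynomial σ A, MvPolynomial.map (algebraMap A L) r' = r := by
  classical
  refine ⟨∑ m ∈ r.support, monomial m (⟨coeff m r, h m⟩ : A), ?_⟩
  rw [map_sum]
  conv_rhs => rw [r.as_sum]
  refine Finset.sum_congr rfl fun m _ => ?_
  rw [MvPolynomial.map_monomial]
  rfl

theorem t_SPB : Pool.Agent.Helper68.TG.SPB := by
  intro σ _ _ N K L κ _ _ _ _ l j b g α r i0 hr hα
  classical
  letI : Algebra K L := l.toAlgebra
  letI : Algebra K κ := j.toAlgebra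
  let S : Set L := Set.range α ∪ ((r.support.image fun m => coeff m r : Finset L) : Set L)
  have hS : S.Finite := (Set.finite_range α).union (Finset.finite_toSet _)
  obtain ⟨φ⟩ := nsl K L κ S hS
  set A : Subalgebra K L := Algebra.adjoin K S with hA
  have hαA : ∀ i, α i ∈ A := fun i => Algebra.subset_adjoin (Or.inl ⟨i, rfl⟩)
  have hrA : ∀ m, coeff m r ∈ A := by
    intro m
    by_cases hm : m ∈ r.support
    · exact Algebra.subset_adjoin (Or.inr (by
        simpa using ⟨m, by simpa using hm, rfl⟩))
    · rw [MvPolynomial.notMem_support_iff.1 hm]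
      exact A.zero_mem
  obtain ⟨r1, hr1⟩ := lift_poly A r hrA
  let α1 : σ → A := fun i => ⟨α i, hαA i⟩
  have hinj : Function.Injective (algebraMap A L) := Subtype.val_injective
  have hl : (algebraMap A L).comp (algebraMap K A) = l := rfl
  have hj : (φ : A →+* κ).comp (algebraMap K A) = j := by
    ext x
    exact φ.commutes x
  have key : PN N (fun i => MvPolynomial.map (algebraMap K A) (b i))
      (MvPolynomial.map (algebraMap K A) g) α1 =
      MvPolynomial.map (algebraMap K A) g * r1 := by
    apply MvPolynomial.map_injective _ hinj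
    rw [pn_map, map_mul, hr1]
    simp only [MvPolynomial.map_map, hl]
    exact hr
  refine ⟨fun i => φ (α1 i), MvPolynomial.map (φ : A →+* κ) r1, ?_, ?_⟩
  · have h2 := congrArg (MvPolynomial.map (φ : A →+* κ)) key
    rw [pn_map, map_mul] at h2
    simp only [MvPolynomial.map_map, hj] at h2
    exact h2
  · have h1 : α1 i0 = 1 := Subtype.ext hα
    show φ (α1 i0) = 1
    rw [h1, map_one]

end Pool.Agent.Helper46.TG.SPB
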